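import Mathlib

set_option autoImplicit false

namespace Pool.Agent.Results.MP_1f54e8_co.Counter

/-- Binary words of length `n` (letter 1 is `true`) that do not contain `w` as a factor. -/
def avoid (w : List Bool) (n : ℕ) : Finset (Fin n → Bool) :=
  Finset.univ.filter fun u => ¬ w <:+: List.ofFn u

/-- Average frequency of 1s in the `w`-avoiding words of length `n`. -/
noncomputable def freq (w : List Bool) (n : ℕ) : ℝ :=
  (∑ u ∈ avoid w n, ((List.ofFn u).count true : ℝ)) / (n * (avoid w n).card)

/-- The excluded words `1^(k-1) 0`, `1 0^(k-1)`, `0^(k-1) 1`, `0 1^(k-1)`, `k ≥ 2`. -/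
def Excl (w : List Bool) : Prop :=
  ∃ j, 1 ≤ j ∧ (w = List.replicate j true ++ [false] ∨ w = true :: List.replicate j false ∨
    w = List.replicate j false ++ [true] ∨ w = false :: List.replicate j true)

def cc (v s : List Bool) (n : ℕ) : ℤ :=
  ∑ u : Fin n → Bool, if v <:+: s ++ List.ofFn u then 0 else 1

def oo (v s : List Bool) (n : ℕ) : ℤ :=
  ∑ u : Fin n → Bool, if v <:+: s ++ List.ofFn u then 0 else ((List.ofFn u).count true : ℤ)

theorem sum_succ (n : ℕ) (F : List Bool → ℤ) :
    ∑ u : Fin (n + 1) → Bool, F (List.ofFn u) =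
      ∑ u : Fin n → Bool, F (false :: List.ofFn u) + ∑ u : Fin n → Bool, F (true :: List.ofFn u) := by
  rw [← (Fin.consEquiv fun _ => Bool).sum_comp, Fintype.sum_prod_type, Fintype.sum_bool, add_comm]
  simp [Fin.consEquiv]

theorem cc_succ (v s : List Bool) (n : ℕ) :
    cc v s (n + 1) = cc v (s ++ [false]) n + cc v (s ++ [true]) n := by
  unfold cc
  rw [sum_succ n (fun l => if v <:+: s ++ l then 0 else 1)]
  simp only [List.append_assoc, List.singleton_append]

theorem oo_succ (v s : List Bool) (n : ℕ) :
    oo v s (n + 1) = oo v (s ++ [false]) n + (oo v (s ++ [true]) n + cc v (s ++ [true]) n) := by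
  unfold oo cc
  rw [sum_succ n (fun l => if v <:+: s ++ l then 0 else (l.count true : ℤ))]
  simp only [List.append_assoc, List.singleton_append, ← Finset.sum_add_distrib]
  refine Finset.sum_congr rfl fun u _ => ?_
  split_ifs <;> simp

theorem red (v s s' : List Bool) (h : ∀ u, v <:+: s ++ u ↔ v <:+: s' ++ u) (n : ℕ) :
    cc v s n = cc v s' n ∧ oo v s n = oo v s' n := by
  unfold cc oo
  simp only [h, and_self]

theorem dead (v : List Bool) (n : ℕ) : cc v v n = 0 ∧ oo v v n = 0 := by
  unfold cc oo
  have : ∀ u, v <:+: v ++ u := fun u => (List.prefix_append v u).isInfix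
  simp [this]

theorem zero (v s : List Bool) (h : ¬ v <:+: s) : cc v s 0 = 1 ∧ oo v s 0 = 0 := by
  unfold cc oo
  simp [h]

structure St where
  (a b c d oa ob oc od : ℤ)

def vv : List Bool := [true, false, true, true]
def ww : List Bool := [true, true, true, true]

def st (v s1 s2 s3 : List Bool) (n : ℕ) : St :=
  ⟨cc v [] n, cc v s1 n, cc v s2 n, cc v s3 n, oo v [] n, oo v s1 n, oo v s2 n, oo v s3 n⟩

def f1 (x : St) : St := ⟨x.a + x.b, x.c + x.b, x.a + x.d, x.c, x.oa + (x.ob + x.b),
  x.oc + (x.ob + x.b), x.oa + (x.od + x.d), x.oc⟩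
def f2 (x : St) : St := ⟨x.a + x.b, x.a + x.c, x.a + x.d, x.a, x.oa + (x.ob + x.b),
  x.oa + (x.oc + x.c), x.oa + (x.od + x.d), x.oa⟩

def s1 (n : ℕ) : St := st vv [true] [true, false] [true, false, true] n
def s2 (n : ℕ) : St := st ww [true] [true, true] [true, true, true] n

theorem s1_succ (n : ℕ) : s1 (n + 1) = f1 (s1 n) := by
  have r1 := red vv [false] [] (by simp [vv, List.infix_cons_iff]) n
  have r2 := red vv [true, true] [true] (by simp [vv, List.infix_cons_iff]) n
  have r3 := red vv [true, false, false] [] (by simp [vv, List.infix_cons_iff]) n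
  have r4 := red vv [true, false, true, false] [true, false] (by simp [vv, List.infix_cons_iff]) n
  have r5 := dead vv n
  unfold s1 st f1
  simp only [cc_succ, oo_succ, List.nil_append, List.cons_append, r1.1, r1.2, r2.1, r2.2, r3.1,
    r3.2, r4.1, r4.2, show [true, false, true, true] = vv from rfl, r5.1, r5.2, add_zero]

theorem s2_succ (n : ℕ) : s2 (n + 1) = f2 (s2 n) := by
  have r1 := red ww [false] [] (by simp [ww, List.infix_cons_iff]) n
  have r2 := red ww [true, false] [] (by simp [ww, List.infix_cons_iff]) n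
  have r3 := red ww [true, true, false] [] (by simp [ww, List.infix_cons_iff]) n
  have r4 := red ww [true, true, true, false] [] (by simp [ww, List.infix_cons_iff]) n
  have r5 := dead ww n
  unfold s2 st f2
  simp only [cc_succ, oo_succ, List.nil_append, List.cons_append, r1.1, r1.2, r2.1, r2.2, r3.1,
    r3.2, r4.1, r4.2, show [true, true, true, true] = ww from rfl, r5.1, r5.2, add_zero]

def it (f : St → St) : ℕ → St
  | 0 => ⟨1, 1, 1, 1, 0, 0, 0, 0⟩
  | n + 1 => f (it f n)

theorem s1_eq (n : ℕ) : s1 n = it f1 n := by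
  induction n with
  | zero =>
    unfold s1 st it
    simp only [zero vv [] (by decide), zero vv [true] (by decide),
      zero vv [true, false] (by decide), zero vv [true, false, true] (by decide)]
  | succ n ih => rw [s1_succ, ih]; rfl

theorem s2_eq (n : ℕ) : s2 n = it f2 n := by
  induction n with
  | zero =>
    unfold s2 st it
    simp only [zero ww [] (by decide), zero ww [true] (by decide),
      zero ww [true, true] (by decide), zero ww [true, true, true] (by decide)]
  | succ n ih => rw [s2_succ, ih]; rfl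

theorem pos6 (F : ℕ → ℤ) (m : ℕ)
    (h : ∀ n, m ≤ n → F (n + 5) + F (n + 4) + F (n + 3) + F n ≤ F (n + 6))
    (h0 : ∀ i < 6, 0 ≤ F (m + i)) (n : ℕ) (hn : m ≤ n) : 0 ≤ F n := by
  induction n using Nat.strong_induction_on with
  | _ n ih =>
    by_cases h1 : n < m + 6
    · have := h0 (n - m) (by omega)
      rwa [show m + (n - m) = n by omega] at this
    · obtain ⟨k, rfl⟩ : ∃ k, n = k + 6 := ⟨n - 6, by omega⟩
      have := h k (by omega)
      have := ih (k + 5) (by omega) (by omega)
      have := ih (k + 4) (by omega) (by omega)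
      have := ih (k + 3) (by omega) (by omega)
      have := ih k (by omega) (by omega)
      omega

theorem pos4 (F : ℕ → ℤ) (m : ℕ)
    (h : ∀ n, m ≤ n → F (n + 3) + F (n + 2) + F (n + 1) + F n ≤ F (n + 4))
    (h0 : ∀ i < 4, 0 ≤ F (m + i)) (n : ℕ) (hn : m ≤ n) : 0 ≤ F n := by
  induction n using Nat.strong_induction_on with
  | _ n ih =>
    by_cases h1 : n < m + 4
    · have := h0 (n - m) (by omega)
      rwa [show m + (n - m) = n by omega] at this
    · obtain ⟨k, rfl⟩ : ∃ k, n = k + 4 := ⟨n - 4, by omega⟩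
      have := h k (by omega)
      have := ih (k + 3) (by omega) (by omega)
      have := ih (k + 2) (by omega) (by omega)
      have := ih (k + 1) (by omega) (by omega)
      have := ih k (by omega) (by omega)
      omega

theorem b1 (n : ℕ) (hn : 50 ≤ n) : 0 ≤ 17 * n * (it f1 n).a - 40 * (it f1 n).oa := by
  have H := pos6 (fun n => -23 * (it f1 (n + 5)).a - 6 * (it f1 (n + 4)).a +
    91 * (it f1 (n + 3)).a + 22 * (it f1 n).a) 50 (fun n _ => by
      simp only [it, f1]; linarith) (by decide +kernel)
  refine pos6 (fun n => 17 * n * (it f1 n).a - 40 * (it f1 n).oa) 50 (fun n hn => ?_)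
    (by decide +kernel) n hn
  have := H n hn
  simp only [it, f1] at this ⊢
  push_cast
  linarith

theorem b2 (n : ℕ) (hn : 50 ≤ n) : 0 ≤ 100 * (it f2 n).oa - 43 * n * (it f2 n).a := by
  have H := pos4 (fun n => -43 * (it f2 (n + 3)).a + 14 * (it f2 (n + 2)).a +
    71 * (it f2 (n + 1)).a + 128 * (it f2 n).a) 50 (fun n _ => by
      simp only [it, f2]; linarith) (by decide +kernel)
  refine pos4 (fun n => 100 * (it f2 n).oa - 43 * n * (it f2 n).a) 50 (fun n hn => ?_)
    (by decide +kernel) n hn
  have := H n hn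
  simp only [it, f2] at this ⊢
  push_cast
  linarith

theorem freq_eq (v : List Bool) (n : ℕ) :
    freq v n = (oo v [] n : ℝ) / (n * (cc v [] n : ℝ)) := by
  unfold freq oo cc avoid
  rw [Finset.sum_filter, Finset.card_filter]
  push_cast
  simp only [List.nil_append, ite_not]

theorem cc_pos (v : List Bool) (hv : true ∈ v) (n : ℕ) : (0 : ℝ) < cc v [] n := by
  have : 0 < cc v [] n := by
    unfold cc
    refine Finset.sum_pos' (fun u _ => by split_ifs <;> norm_num)
      ⟨fun _ => false, Finset.mem_univ _, ?_⟩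
    rw [if_neg]
    · norm_num
    · intro h
      simpa using h.subset hv
  exact_mod_cast this

theorem result : ∃ v w : List Bool, ¬ Excl v ∧ ¬ Excl w ∧ 2 ≤ v.length ∧ v.length = w.length ∧
    v.count true < w.count true ∧
    ∃ a b : ℝ, a < b ∧ ∀ᶠ n in Filter.atTop, freq v n ≤ a ∧ b ≤ freq w n := by
  have ex : ∀ v : List Bool, v.length = 4 → Excl v →
      v = List.replicate 3 true ++ [false] ∨ v = true :: List.replicate 3 false ∨
      v = List.replicate 3 false ++ [true] ∨ v = false :: List.replicate 3 true := by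
    rintro v hv ⟨j, -, h⟩
    have : j = 3 := by
      rcases h with h | h | h | h <;> rw [h] at hv <;> simp at hv <;> omega
    rwa [this] at h
  refine ⟨vv, ww, fun h => absurd (ex _ rfl h) (by decide), fun h => absurd (ex _ rfl h) (by decide),
    by decide, rfl, by decide, 17 / 40, 43 / 100, by norm_num, ?_⟩
  filter_upwards [Filter.eventually_ge_atTop 50] with n hn
  have hn' : (0 : ℝ) < n := by exact_mod_cast (by omega : 0 < n)
  have h1 := b1 n hn
  have h2 := b2 n hn
  rw [← s1_eq] at h1
  rw [← s2_eq] at h2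
  have h1' : (0 : ℝ) ≤ 17 * n * (cc vv [] n : ℝ) - 40 * (oo vv [] n : ℝ) := by exact_mod_cast h1
  have h2' : (0 : ℝ) ≤ 100 * (oo ww [] n : ℝ) - 43 * n * (cc ww [] n : ℝ) := by exact_mod_cast h2
  rw [freq_eq, freq_eq, div_le_iff₀ (mul_pos hn' (cc_pos vv (by decide) n)),
    le_div_iff₀ (mul_pos hn' (cc_pos ww (by decide) n))]
  constructor <;> linarith

end Pool.Agent.Results.MP_1f54e8_co.Counter
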